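import Pool.Agent.helper60.DB.SpecF

set_option autoImplicit false

namespace Pool.Agent.helper60.DB

open Polynomial Finset Pool.Agent.helper60.DK

private lemma CP_main (IZ : IZ_stmt) (YE : YE_stmt) (TT : TT_stmt) (CH : CH_stmt)
    (R k : Type) [CommRing R] [IsDomain R] [CharZero R] [Field k] (p : ℕ) [Fact p.Prime]
    [CharP k p] (q : R →+* k) (hL : Loc p q) (h7 : 7 ≤ p) (h11 : p ≠ 11) (u v : R) (a b : ℤ)
    (hu : u ^ 2 = 5) (hv : v ^ 2 = -3) (hq : q u ^ p = q u) (hp : (p : ℤ) = a ^ 2 + 15 * b ^ 2)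
    (hz : q (a + b * (u * v)) = 0) :
    ∃ z : R, aeval (-4 : R) (DA.St p)
      = (legendreSym p (-3) : ℤ) * (4 * (a : R) ^ 2 - 2 * p) + (p : R) ^ 2 * z := by
  have hpp : p.Prime := Fact.out
  have hodd : Odd p := hpp.odd_of_ne_two (by omega)
  have hm : p = 2 * hh p + 1 := by
    obtain ⟨j, hj⟩ := hodd
    unfold hh
    omega
  have hint : ∀ n : ℤ, ¬ (p : ℤ) ∣ n → q (n : R) ≠ 0 := fun n hn h => hn (((IZ R k p q hL).1 n).1 h)
  have hq2 : q (2 : R) ≠ 0 := by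
    have h := hint 2 (fun h => by
      have := Int.le_of_dvd (by norm_num) h
      omega)
    simpa using h
  have hq3 : q (-3 : R) ≠ 0 := by
    have h := hint (-3) (fun h => by
      have := Int.le_of_dvd (by norm_num) ((dvd_neg).2 h)
      omega)
    simpa using h
  have h2u : IsUnit (2 : R) := hL.unit _ hq2
  obtain ⟨y1, w1, hy1, hw1, _⟩ := YE R h2u (6 * (16 + 7 * u)) (-3)
  obtain ⟨y2, w2, hy2, hw2, _⟩ := YE R h2u (6 * (16 + 7 * (-u))) (-3)
  obtain ⟨z1, hz1⟩ := CH R k p (hh p) q hL h7 h11 hm u v a b y1 w1 hu hv hq hy1 hw1 hp hz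
  obtain ⟨z2, hz2⟩ := CH R k p (hh p) q hL h7 h11 hm (-u) (-v) a b y2 w2 (by rw [neg_sq]; exact hu)
    (by rw [neg_sq]; exact hv) (by rw [map_neg, hodd.neg_pow, hq]) hy2 hw2 hp
    (by rw [neg_mul_neg]; exact hz)
  rw [neg_mul_neg] at hz2
  obtain ⟨z3, hz3⟩ := TT p (by omega) R u (-4) (6 * (16 + 7 * u)) (6 * (16 + 7 * (-u))) (-3) y1 w1 y2 w2
    (by linear_combination 3 * hu)
    (by
      have h : (4 : R) - u ^ 2 = -1 := by linear_combination -hu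
      rw [h]
      exact isUnit_one.neg)
    (by norm_num)
    (by linear_combination (29520 - 3744 * u - 14256 * u ^ 2 + 1008 * u ^ 3 + 1764 * u ^ 4) * hu)
    (by linear_combination (29520 + 3744 * u - 14256 * u ^ 2 - 1008 * u ^ 3 + 1764 * u ^ 4) * hu)
    hy1 hw1 hy2 hw2
  obtain ⟨A, hA⟩ : ∃ A : R, A = aeval (-4 : R) (DA.St p) := ⟨_, rfl⟩
  rw [← hA] at hz3 ⊢
  obtain ⟨l, hl⟩ : ∃ l : R, l = ((legendreSym p (-3) : ℤ) : R) := ⟨_, rfl⟩
  rw [← hl] at hz1 hz2 ⊢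
  obtain ⟨c, hc⟩ := (hL.ker _).1 hz
  have hU : q (4 * (-3) ^ hh p) ≠ 0 := by
    rw [map_mul, map_pow]
    refine mul_ne_zero ?_ (pow_ne_zero _ hq3)
    have h4 : (4 : R) = 2 * 2 := by norm_num
    rw [h4, map_mul]
    exact mul_ne_zero hq2 hq2
  obtain ⟨W, hW⟩ := (hL.unit _ hU).exists_left_inv
  have hpR : (p : R) = (a : R) ^ 2 + 15 * (b : R) ^ 2 := by
    have h := congrArg (fun n : ℤ => (n : R)) hp
    push_cast at h
    exact h
  obtain ⟨Z, hZ⟩ : ∃ Z, Z = (2 + u) * z1 + (2 - u) * z2 + z3 := ⟨_, rfl⟩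
  have s1 : (4 * (-3) ^ hh p) * A = (4 * (-3) ^ hh p) * (l * (a - b * (u * v)) ^ 2) + (p : R) ^ 2 * Z := by
    rw [hZ]
    linear_combination hz3 + (2 + u) * hz1 + (2 - u) * hz2
  have s2 : A = l * (a - b * (u * v)) ^ 2 + (p : R) ^ 2 * (W * Z) := by
    linear_combination W * s1 - (A - l * (a - b * (u * v)) ^ 2) * hW
  have s3 : ((a : R) - b * (u * v)) ^ 2 = 4 * (a : R) ^ 2 - 2 * p - (p : R) ^ 2 * c ^ 2 := by
    linear_combination (-((a : R) + b * (u * v) + p * c)) * hc + 2 * hpR + 2 * (b : R) ^ 2 * v ^ 2 * hu +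
      10 * (b : R) ^ 2 * hv
  refine ⟨W * Z - l * c ^ 2, ?_⟩
  rw [s3] at s2
  linear_combination s2

/-- ROW bf:CP. -/
theorem CP (h1 : IZ_stmt) (h2 : YE_stmt) (h3 : TT_stmt) (h4 : CH_stmt) : CP_stmt := by
  intro R k _ _ _ _ p _ _ q hL h7 h11 u v a b hu hv hq hp
  have hpR : (p : R) = (a : R) ^ 2 + 15 * (b : R) ^ 2 := by
    have h := congrArg (fun n : ℤ => (n : R)) hp
    push_cast at h
    exact h
  have hprod : q ((a + b * (u * v)) * (a - b * (u * v))) = 0 := by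
    rw [hL.ker]
    refine ⟨1, ?_⟩
    linear_combination -hpR - (b : R) ^ 2 * v ^ 2 * hu - 5 * (b : R) ^ 2 * hv
  rw [map_mul] at hprod
  rcases mul_eq_zero.1 hprod with h | h
  · exact CP_main h1 h2 h3 h4 R k p q hL h7 h11 u v a b hu hv hq hp h
  · exact CP_main h1 h2 h3 h4 R k p q hL h7 h11 u v a (-b) hu hv hq (by rw [neg_sq]; exact hp)
      (by
        push_cast
        rw [neg_mul, ← sub_eq_add_neg]
        exact h)

end Pool.Agent.helper60.DB
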